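import Pool.Agent.TH780.Iter

/-!
# Ultrafilters Tukey below a Fubini iterate of p-points are basically generated

Idea of the proof.  A Fubini iterate `U` of p-points has a base `B`, closed under intersections, with
finite approximations for which a fusion lemma holds: if for each `n` we are given finitely many
members of `B`, then there are `Z` in `B` and infinitely many `n` such that every `X ⊆ Z` in `B` is
contained in all the given sets for `n` which have the same `n`-th approximation as `X`.
Let `f` be a monotone map from `U` to `V` with cofinal image, and let `K n X` be the closed set of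
the ultrafilters that contain `f X'` for all `X'` with the same `n`-th approximation as `X`.

* For some `Z` in `B` all the sets `K n Z` are finite.  Otherwise a fusion argument yields, for the
  least `n` with `K n X` infinite, a discrete family of finite sets of ultrafilters, and a set `A`
  such that neither `A` nor its complement contains a set `f X` with `X ⊆ Z`.
* By a second fusion, each `q` in one of these sets contains a set `C` such that `f X` is in `q`
  whenever it meets `C`, for all `X ⊆ Z`.
* If `f (X i)` converges to `f X` then each `q` in `K n X` contains almost all the sets `f (X i)`.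
  By compactness there are `X' n` with the same `n`-th approximation as `X` and `i n` such that
  `f (X' n) ⊆ f (X (i n))`, and infinitely many of the `X' n` have an intersection in `U`.
-/

set_option autoImplicit false

namespace Pool.Agent.Results.MP_af8240_lc.BelowFubiniIterates

open Set Filter

/-- `U` is nonprincipal. -/
def Nonprincipal (U : Ultrafilter ℕ) : Prop := ∀ n : ℕ, ({n} : Set ℕ) ∉ U

/-- `U` is a p-point: `U` is nonprincipal, and for every sequence `A n` in `U` there is `B` in `U`
with `B \ A n` finite for every `n`. -/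
def IsPPoint (U : Ultrafilter ℕ) : Prop :=
  Nonprincipal U ∧ ∀ A : ℕ → Set ℕ, (∀ n, A n ∈ U) → ∃ B ∈ U, ∀ n, (B \ A n).Finite

/-- The Fubini limit of the ultrafilters `V n` along `U`: a set `A` belongs to it if and only if
`{n | {m | (n, m) ∈ A} ∈ V n} ∈ U`. -/
def fubiniLim (U : Ultrafilter ℕ) (V : ℕ → Ultrafilter ℕ) : Ultrafilter (ℕ × ℕ) :=
  U.bind fun n => (V n).map (Prod.mk n)

theorem mem_fubiniLim (U : Ultrafilter ℕ) (V : ℕ → Ultrafilter ℕ) (A : Set (ℕ × ℕ)) :
    A ∈ fubiniLim U V ↔ {n | {m | (n, m) ∈ A} ∈ V n} ∈ U := Iff.rfl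

/-- The (countable) Fubini iterates of p-points: the smallest class of ultrafilters that contains
all p-points, is closed under isomorphism and contains the Fubini limit of `V n` along `U` whenever
`U` and all the `V n` belong to it. -/
inductive FubiniIterate : Ultrafilter ℕ → Prop
  | ppoint (U : Ultrafilter ℕ) : IsPPoint U → FubiniIterate U
  | iso (U : Ultrafilter ℕ) (e : ℕ ≃ ℕ) : FubiniIterate U → FubiniIterate (U.map e)
  | lim (U : Ultrafilter ℕ) (V : ℕ → Ultrafilter ℕ) (e : ℕ × ℕ ≃ ℕ) : FubiniIterate U →
      (∀ n, FubiniIterate (V n)) → FubiniIterate ((fubiniLim U V).map e)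

/-- `V` is Tukey reducible to `U`: there is a monotone map from `U` to `V` with cofinal image. -/
def TukeyLE (V U : Ultrafilter ℕ) : Prop :=
  ∃ f : Set ℕ → Set ℕ, (∀ A ∈ U, f A ∈ V) ∧ (∀ A ∈ U, ∀ B ∈ U, B ⊆ A → f B ⊆ f A) ∧
    ∀ Q ∈ V, ∃ A ∈ U, f A ⊆ Q

/-- `U` is basically generated: it has a base `ℬ` such that every sequence in `ℬ` that converges
to a member of `ℬ` has a subsequence whose intersection is in `U`. -/
def BasicallyGenerated (U : Ultrafilter ℕ) : Prop :=
  ∃ ℬ : Set (Set ℕ), (∀ X ∈ ℬ, X ∈ U) ∧ (∀ A ∈ U, ∃ X ∈ ℬ, X ⊆ A) ∧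
    ∀ (X : ℕ → Set ℕ) (Y : Set ℕ), (∀ n, X n ∈ ℬ) → Y ∈ ℬ →
      (∀ m : ℕ, ∀ᶠ n in atTop, (m ∈ X n ↔ m ∈ Y)) →
      ∃ φ : ℕ → ℕ, StrictMono φ ∧ (⋂ k, X (φ k)) ∈ U

theorem exists_fusion {U : Ultrafilter ℕ} (hU : FubiniIterate U) :
    ∃ B r, Pool.Agent.TH780.BG.Fusion U B r := by
  induction hU with
  | ppoint U hU =>
    refine ⟨_, _, Pool.Agent.TH780.BG.fusion_ppoint U ?_ hU.2⟩
    intro s hs hmem
    obtain ⟨n, hn, hn'⟩ := (Ultrafilter.finite_biUnion_mem_iff hs (s := fun n : ℕ => ({n} : Set ℕ))).1
      (by rwa [biUnion_of_singleton])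
    exact hU.1 n hn'
  | iso U e _ ih =>
    obtain ⟨B, r, h⟩ := ih
    exact ⟨_, _, h.map_equiv e⟩
  | lim U V e _ _ ih1 ih2 =>
    obtain ⟨B, r, h⟩ := ih1
    choose C ρ hC using ih2
    exact ⟨_, _, (Pool.Agent.TH780.BG.fusion_lim h hC).map_equiv e⟩

/-- Every ultrafilter Tukey reducible to a Fubini iterate of p-points is basically generated. -/
theorem result : ∀ U V : Ultrafilter ℕ, FubiniIterate U → TukeyLE V U → BasicallyGenerated V := by
  rintro U V hU ⟨f, h1, h2, h3⟩
  obtain ⟨B, r, h⟩ := exists_fusion hU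
  exact h.basically (f := f) ⟨h1, fun A hA A' hA' hAA => h2 A' hA' A hA hAA, h3⟩

end Pool.Agent.Results.MP_af8240_lc.BelowFubiniIterates
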